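import Mathlib

/-!
# A connected subcubic graph with zero forcing number at least its independence number plus two

The graph `G` has 24 vertices: a central triangle `0, 1, 2`, three further vertices `3, 10, 17` joined to
`0, 1, 2` respectively, and two pendant triangles attached to each of `3, 10, 17`.

Lower bound: in each of the seven triangles at most one vertex is forced from inside the triangle, every
other force into a triangle comes from one of the three vertices `3, 10, 17`, and each of these forces at
most once; so a zero forcing set has at least `21 - 7 - 3 = 11` elements. An independent set has at most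
nine elements: one in each triangle and the three vertices `3, 10, 17`, but if it contains all of these it
misses the central triangle.
-/

set_option autoImplicit false

namespace Pool.Agent.Results.MP_48c3bc_co.Disproof

open Finset

/-- One round of the colour-change rule: add to `S` every `w` that is the only neighbour outside `S` of
some `v ∈ S`. -/
def round {V : Type*} (G : SimpleGraph V) (S : Set V) : Set V :=
  S ∪ {w | ∃ v ∈ S, G.neighborSet v \ S = {w}}

/-- `S` is a zero forcing set: repeated application of the colour-change rule leads to the whole vertex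
set. -/
def IsZeroForcing {V : Type*} (G : SimpleGraph V) (S : Set V) : Prop :=
  ∃ k : ℕ, (round G)^[k] S = Set.univ

/-- The zero forcing number: the least size of a zero forcing set. -/
noncomputable def zeroForcingNumber {V : Type*} (G : SimpleGraph V) : ℕ :=
  sInf {k | ∃ S : Finset V, S.card = k ∧ IsZeroForcing G (S : Set V)}

/-- the edges -/
def E : List (Fin 24 × Fin 24) :=
  [(0,1),(1,2),(0,2),(3,4),(4,5),(5,6),(4,6),(3,7),(7,8),(8,9),(7,9),(0,3),(10,11),(11,12),(12,13),
   (11,13),(10,14),(14,15),(15,16),(14,16),(1,10),(17,18),(18,19),(19,20),(18,20),(17,21),(21,22),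
   (22,23),(21,23),(2,17)]

/-- the graph -/
def G : SimpleGraph (Fin 24) where
  Adj u v := (u, v) ∈ E ∨ (v, u) ∈ E
  symm := ⟨fun _ _ h => h.symm⟩
  loopless := ⟨by decide⟩

instance : DecidableRel G.Adj := fun u v => inferInstanceAs (Decidable ((u, v) ∈ E ∨ (v, u) ∈ E))

/-- the triangle of a vertex, and `7` for the three vertices in no triangle -/
def tri : Fin 24 → Fin 8 :=
  ![0,0,0,7,1,1,1,2,2,2,7,3,3,3,4,4,4,7,5,5,5,6,6,6]

theorem adj_of_tri : ∀ u v : Fin 24, tri u = tri v → tri u ≠ 7 → u ≠ v → G.Adj u v := by decide

theorem tri_zero : ∀ w : Fin 24, tri w = 0 → w = 0 ∨ w = 1 ∨ w = 2 := by decide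

theorem deg_le : ∀ v : Fin 24, (univ.filter (fun u => G.Adj v u)).card ≤ 3 := by decide

theorem tri_of_adj : ∀ u v : Fin 24, G.Adj u v → tri u ≠ tri v → tri v ≠ 7 → tri u = 7 := by decide

/-- time structure of a zero forcing set -/
theorem times {V : Type*} (H : SimpleGraph V) (S : Set V) (hS : IsZeroForcing H S) :
    ∃ t : V → ℕ, ∀ w, w ∉ S → ∃ v, H.Adj v w ∧ t v < t w ∧ ∀ u, H.Adj v u → u ≠ w → t u < t w := by
  classical
  obtain ⟨k, hk⟩ := hS
  have hex : ∀ w, ∃ j, w ∈ (round H)^[j] S := fun w => ⟨k, by rw [hk]; trivial⟩
  refine ⟨fun w => Nat.find (hex w), fun w hw => ?_⟩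
  have h1 := Nat.find_spec (hex w)
  rcases hj : Nat.find (hex w) with _ | j
  · rw [hj] at h1; exact absurd h1 hw
  · rw [hj, Function.iterate_succ_apply'] at h1
    have h2 : w ∉ (round H)^[j] S := Nat.find_min (hex w) (by omega)
    rcases h1 with h1 | ⟨v, hv, hvw⟩
    · exact absurd h1 h2
    · have hw' : w ∈ H.neighborSet v \ (round H)^[j] S := by rw [hvw]; rfl
      refine ⟨v, hw'.1, ?_, fun u hu huw => ?_⟩
      · simp only [hj]
        exact Nat.lt_succ_of_le (Nat.find_min' (hex v) hv)
      · simp only [hj]
        have hu' : u ∈ (round H)^[j] S := by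
          by_contra hcon
          have : u ∈ H.neighborSet v \ (round H)^[j] S := ⟨hu, hcon⟩
          rw [hvw] at this
          exact huw this
        exact Nat.lt_succ_of_le (Nat.find_min' (hex u) hu')

theorem lower (S : Finset (Fin 24)) (hS : IsZeroForcing G (S : Set (Fin 24))) : 11 ≤ S.card := by
  classical
  obtain ⟨t, ht⟩ := times G _ hS
  have ht' : ∀ w, w ∉ S → ∃ v, G.Adj v w ∧ t v < t w ∧ ∀ u, G.Adj v u → u ≠ w → t u < t w :=
    fun w hw => ht w (by simpa using hw)
  choose! f hf using ht'
  -- the vertices of the triangles outside `S`, forced from inside and from outside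
  set A : Finset (Fin 24) := univ.filter (fun w => w ∉ S ∧ tri w ≠ 7 ∧ tri (f w) = tri w) with hA
  set B : Finset (Fin 24) := univ.filter (fun w => w ∉ S ∧ tri w ≠ 7 ∧ tri (f w) ≠ tri w) with hB
  have hcover : (univ.filter (fun w : Fin 24 => tri w ≠ 7)) ⊆ S ∪ (A ∪ B) := by
    intro w hw
    simp only [mem_filter, mem_univ, true_and, mem_union, hA, hB] at hw ⊢
    by_cases h1 : w ∈ S
    · exact Or.inl h1
    · by_cases h2 : tri (f w) = tri w
      · exact Or.inr (Or.inl ⟨h1, hw, h2⟩)
      · exact Or.inr (Or.inr ⟨h1, hw, h2⟩)
  have hcard : (univ.filter (fun w : Fin 24 => tri w ≠ 7)).card = 21 := by decide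
  have hAc : A.card ≤ 7 := by
    have h7 : (univ.filter (fun i : Fin 8 => i ≠ 7)).card = 7 := by decide
    rw [← h7]
    apply Finset.card_le_card_of_injOn tri
    · intro w hw
      simp only [hA, coe_filter, mem_univ, true_and, Set.mem_ofPred_eq] at hw ⊢
      exact hw.2.1
    · intro w hw w' hw' hww'
      simp only [hA, coe_filter, mem_univ, true_and, Set.mem_ofPred_eq] at hw hw'
      by_contra hne
      have key : ∀ a b : Fin 24, a ∉ S → tri a ≠ 7 → tri (f a) = tri a → tri b = tri a → b ≠ a →
          t b < t a := by
        intro a b ha ha7 hfa hba hne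
        obtain ⟨h1, h2, h3⟩ := hf a ha
        by_cases hb : b = f a
        · rw [hb]; exact h2
        · exact h3 b (adj_of_tri (f a) b (by rw [hfa, hba]) (by rw [hfa]; exact ha7) (Ne.symm hb)) hne
      have h1 := key w w' hw.1 hw.2.1 hw.2.2 hww'.symm (Ne.symm hne)
      have h2 := key w' w hw'.1 hw'.2.1 hw'.2.2 hww' hne
      omega
  have hBc : B.card ≤ 3 := by
    have h3 : (univ.filter (fun w : Fin 24 => tri w = 7)).card = 3 := by decide
    rw [← h3]
    apply Finset.card_le_card_of_injOn f
    · intro w hw
      simp only [hB, coe_filter, mem_univ, true_and, Set.mem_ofPred_eq] at hw ⊢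
      exact tri_of_adj (f w) w (hf w hw.1).1 hw.2.2 hw.2.1
    · intro w hw w' hw' hww'
      simp only [hB, coe_filter, mem_univ, true_and, Set.mem_ofPred_eq] at hw hw'
      by_contra hne
      obtain ⟨h1, -, h3⟩ := hf w hw.1
      obtain ⟨h1', -, h3'⟩ := hf w' hw'.1
      have ha := h3 w' (by rw [hww']; exact h1') (Ne.symm hne)
      have hb := h3' w (by rw [← hww']; exact h1) hne
      omega
  have h1 := Finset.card_le_card hcover
  have h2 := Finset.card_union_le S (A ∪ B)
  have h3 := Finset.card_union_le A B
  omega

theorem upper (I : Finset (Fin 24)) (hI : G.IsIndepSet (I : Set (Fin 24))) : I.card ≤ 9 := by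
  classical
  have hI' : ∀ u ∈ I, ∀ v ∈ I, u ≠ v → ¬ G.Adj u v := fun u hu v hv huv =>
    hI (by simpa using hu) (by simpa using hv) huv
  have hsplit : I.card = (I.filter (fun w => tri w = 7)).card + (I.filter (fun w => ¬ tri w = 7)).card :=
    (Finset.card_filter_add_card_filter_not (fun w => tri w = 7)).symm
  have hinj : Set.InjOn tri (I.filter (fun w => ¬ tri w = 7) : Set (Fin 24)) := by
    intro w hw w' hw' hww'
    simp only [coe_filter, Set.mem_ofPred_eq] at hw hw'
    by_contra hne
    exact hI' w hw.1 w' hw'.1 hne (adj_of_tri w w' hww' hw.2 hne)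
  by_cases hall : (3 : Fin 24) ∈ I ∧ (10 : Fin 24) ∈ I ∧ (17 : Fin 24) ∈ I
  · obtain ⟨h3, h10, h17⟩ := hall
    have hc1 : (I.filter (fun w => tri w = 7)).card ≤ 3 := by
      have h3 : (univ.filter (fun w : Fin 24 => tri w = 7)).card = 3 := by decide
      rw [← h3]
      exact Finset.card_le_card (Finset.filter_subset_filter _ (Finset.subset_univ _))
    have hc2 : (I.filter (fun w => ¬ tri w = 7)).card ≤ 6 := by
      have h6 : (univ.filter (fun i : Fin 8 => i ≠ 7 ∧ i ≠ 0)).card = 6 := by decide
      rw [← h6]
      apply Finset.card_le_card_of_injOn tri _ hinj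
      intro w hw
      simp only [coe_filter, mem_univ, true_and, Set.mem_ofPred_eq] at hw ⊢
      refine ⟨hw.2, fun h0 => ?_⟩
      have hw3 : w = 0 ∨ w = 1 ∨ w = 2 := tri_zero w h0
      rcases hw3 with h | h | h
      · exact hI' w hw.1 3 h3 (by rw [h]; decide) (by rw [h]; decide)
      · exact hI' w hw.1 10 h10 (by rw [h]; decide) (by rw [h]; decide)
      · exact hI' w hw.1 17 h17 (by rw [h]; decide) (by rw [h]; decide)
    omega
  · have hc2 : (I.filter (fun w => ¬ tri w = 7)).card ≤ 7 := by
      have h7 : (univ.filter (fun i : Fin 8 => i ≠ 7)).card = 7 := by decide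
      refine le_trans ?_ h7.le
      apply Finset.card_le_card_of_injOn tri _ hinj
      intro w hw
      simp only [coe_filter, mem_univ, true_and, Set.mem_ofPred_eq] at hw ⊢
      exact hw.2
    have hc1 : (I.filter (fun w => tri w = 7)).card ≤ 2 := by
      have hsing : ∀ w : Fin 24, tri w = 7 → w = 3 ∨ w = 10 ∨ w = 17 := by decide
      by_cases h3 : (3 : Fin 24) ∈ I
      · by_cases h10 : (10 : Fin 24) ∈ I
        · have h17 : (17 : Fin 24) ∉ I := fun h => hall ⟨h3, h10, h⟩
          have : I.filter (fun w => tri w = 7) ⊆ {3, 10} := by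
            intro w hw
            simp only [mem_filter, mem_insert, mem_singleton] at hw ⊢
            rcases hsing w hw.2 with h | h | h
            · exact Or.inl h
            · exact Or.inr h
            · rw [h] at hw; exact absurd hw.1 h17
          exact (Finset.card_le_card this).trans (by decide)
        · have : I.filter (fun w => tri w = 7) ⊆ {3, 17} := by
            intro w hw
            simp only [mem_filter, mem_insert, mem_singleton] at hw ⊢
            rcases hsing w hw.2 with h | h | h
            · exact Or.inl h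
            · rw [h] at hw; exact absurd hw.1 h10
            · exact Or.inr h
          exact (Finset.card_le_card this).trans (by decide)
      · have : I.filter (fun w => tri w = 7) ⊆ {10, 17} := by
          intro w hw
          simp only [mem_filter, mem_insert, mem_singleton] at hw ⊢
          rcases hsing w hw.2 with h | h | h
          · rw [h] at hw; exact absurd hw.1 h3
          · exact Or.inl h
          · exact Or.inr h
        exact (Finset.card_le_card this).trans (by decide)
    omega

/-- a neighbour with smaller index -/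
def par : Fin 24 → Fin 24 :=
  ![0,0,0,0,3,4,5,3,7,8,1,10,11,12,10,14,15,2,17,18,19,17,21,22]

theorem conn : G.Connected := by
  have hpar : ∀ v : Fin 24, v ≠ 0 → G.Adj (par v) v ∧ par v < v := by decide
  have h0 : ∀ n : ℕ, ∀ v : Fin 24, v.val = n → G.Reachable 0 v := by
    intro n
    induction n using Nat.strong_induction_on with
    | _ n ih =>
      intro v hv
      by_cases hv0 : v = 0
      · rw [hv0]
      · obtain ⟨h1, h2⟩ := hpar v hv0
        exact (ih (par v).val (by rw [← hv]; exact h2) (par v) rfl).trans h1.reachable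
  have : Nonempty (Fin 24) := ⟨0⟩
  exact ⟨fun u v => (h0 _ u rfl).symm.trans (h0 _ v rfl)⟩

/-- There is a connected graph with maximum degree at most three, not isomorphic to `K₄`, whose zero
forcing number is at least its independence number plus two. -/
theorem result : ∃ G : SimpleGraph (Fin 24), G.Connected ∧ (∀ v, (G.neighborSet v).ncard ≤ 3) ∧
    ¬ Nonempty (G ≃g (⊤ : SimpleGraph (Fin 4))) ∧ G.indepNum + 2 ≤ zeroForcingNumber G := by
  classical
  refine ⟨G, conn, ?_, ?_, ?_⟩
  · intro v
    have h : (G.neighborSet v) = ((univ.filter (fun u => G.Adj v u) : Finset (Fin 24)) : Set (Fin 24)) := by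
      ext u; simp
    rw [h, Set.ncard_coe_finset]
    exact deg_le v
  · rintro ⟨e⟩
    have := Fintype.card_congr e.toEquiv
    simp at this
  · have h1 : G.indepNum ≤ 9 := by
      obtain ⟨s, hs⟩ := G.exists_isNIndepSet_indepNum
      rw [← hs.card_eq]
      exact upper s hs.isIndepSet
    have hne : {k | ∃ S : Finset (Fin 24), S.card = k ∧ IsZeroForcing G (S : Set (Fin 24))}.Nonempty :=
      ⟨_, univ, rfl, 0, by simp⟩
    obtain ⟨S, hSc, hS⟩ := Nat.sInf_mem hne
    have h2 : 11 ≤ zeroForcingNumber G := by
      have := lower S hS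
      rw [hSc] at this
      exact this
    omega

end Pool.Agent.Results.MP_48c3bc_co.Disproof
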